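import Pool.Agent.Y504.CO.Stm2

/-!
# Project IC of helper263, job IC-HYPFIN: linear algebra
-/

set_option autoImplicit false

open scoped Topology
open Set Filter

namespace Pool.Agent.Q166.IC

section lin

variable {E : Type} [NormedAddCommGroup E] [NormedSpace ℝ E] [FiniteDimensional ℝ E]

omit [FiniteDimensional ℝ E] in
theorem semi_zero (p : E → ℝ) (hsmul : ∀ (c : ℝ) v, p (c • v) = |c| * p v) : p 0 = 0 := by
  have := hsmul 0 0
  simpa using this

theorem semi_nonneg (p : E → ℝ) (hadd : ∀ v w, p (v + w) ≤ p v + p w)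
    (hsmul : ∀ (c : ℝ) v, p (c • v) = |c| * p v) (v : E) : 0 ≤ p v := by
  have h1 := hadd v ((-1 : ℝ) • v)
  rw [hsmul] at h1
  have h2 : v + (-1 : ℝ) • v = 0 := by simp
  rw [h2, semi_zero p hsmul] at h1
  simp at h1
  linarith

theorem semi_sum (p : E → ℝ) (hadd : ∀ v w, p (v + w) ≤ p v + p w)
    (hsmul : ∀ (c : ℝ) v, p (c • v) = |c| * p v) {ι : Type*} (s : Finset ι) (f : ι → E) :
    p (∑ i ∈ s, f i) ≤ ∑ i ∈ s, p (f i) := by
  classical
  induction s using Finset.induction_on with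
  | empty => simp [semi_zero p hsmul]
  | insert a s ha ih =>
    rw [Finset.sum_insert ha, Finset.sum_insert ha]
    exact le_trans (hadd _ _) (by linarith)

theorem semi_bound (p : E → ℝ) (hadd : ∀ v w, p (v + w) ≤ p v + p w)
    (hsmul : ∀ (c : ℝ) v, p (c • v) = |c| * p v) : ∃ K : ℝ, 0 ≤ K ∧ ∀ v, p v ≤ K * ‖v‖ := by
  set b := Module.finBasis ℝ E with hb
  set f : Fin (Module.finrank ℝ E) → (E →L[ℝ] ℝ) := fun i =>
    LinearMap.toContinuousLinearMap (b.coord i) with hf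
  have hp0 := semi_nonneg p hadd hsmul
  refine ⟨∑ i, ‖f i‖ * p (b i), Finset.sum_nonneg fun i _ => mul_nonneg (norm_nonneg _) (hp0 _),
    fun v => ?_⟩
  have h1 : v = ∑ i, (f i v) • b i := by
    conv_lhs => rw [← b.sum_repr v]
    rfl
  have h2 : p v ≤ ∑ i, p ((f i v) • b i) := by
    conv_lhs => rw [h1]
    exact semi_sum p hadd hsmul _ _
  refine le_trans h2 ?_
  rw [Finset.sum_mul]
  refine Finset.sum_le_sum fun i _ => ?_
  rw [hsmul]
  have h3 : |f i v| ≤ ‖f i‖ * ‖v‖ := (f i).le_opNorm v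
  have h4 := mul_le_mul_of_nonneg_right h3 (hp0 (b i))
  linarith

theorem semi_lower (p : E → ℝ) (hadd : ∀ v w, p (v + w) ≤ p v + p w)
    (hsmul : ∀ (c : ℝ) v, p (c • v) = |c| * p v) (hpos : ∀ v, v ≠ 0 → 0 < p v) :
    ∃ c : ℝ, 0 < c ∧ ∀ v, c * ‖v‖ ≤ p v := by
  obtain ⟨K, hK0, hK⟩ := semi_bound p hadd hsmul
  have hcont : Continuous p := by
    have hneg : ∀ v, p (-v) = p v := fun v => by
      have := hsmul (-1) v
      simpa using this
    have hdiff : ∀ v w, |p v - p w| ≤ K * ‖v - w‖ := by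
      intro v w
      rw [abs_le]
      have h1 := hadd (v - w) w
      rw [sub_add_cancel] at h1
      have h2 := hadd (w - v) v
      rw [sub_add_cancel, ← neg_sub v w, hneg] at h2
      have h3 := hK (v - w)
      constructor <;> linarith
    have hl : LipschitzWith K.toNNReal p := by
      refine LipschitzWith.of_dist_le_mul fun v w => ?_
      rw [Real.dist_eq, dist_eq_norm, Real.coe_toNNReal K hK0]
      exact hdiff v w
    exact hl.continuous
  rcases (Metric.sphere (0 : E) 1).eq_empty_or_nonempty with he | hne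
  · refine ⟨1, one_pos, fun v => ?_⟩
    have hv : v = 0 := by
      by_contra hv
      have : (‖v‖⁻¹ : ℝ) • v ∈ Metric.sphere (0 : E) 1 := by
        rw [mem_sphere_zero_iff_norm, norm_smul, norm_inv, norm_norm,
          inv_mul_cancel₀ (norm_ne_zero_iff.mpr hv)]
      rw [he] at this
      exact this
    rw [hv, semi_zero p hsmul]
    simp
  · obtain ⟨u, hu, hmin⟩ := (isCompact_sphere (0 : E) 1).exists_isMinOn hne hcont.continuousOn
    have hu0 : u ≠ 0 := by
      rintro rfl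
      simp at hu
    refine ⟨p u, hpos u hu0, fun v => ?_⟩
    rcases eq_or_ne v 0 with rfl | hv
    · rw [semi_zero p hsmul]
      simp
    · have hn : 0 < ‖v‖ := norm_pos_iff.mpr hv
      have h1 : (‖v‖⁻¹ : ℝ) • v ∈ Metric.sphere (0 : E) 1 := by
        rw [mem_sphere_zero_iff_norm, norm_smul, norm_inv, norm_norm,
          inv_mul_cancel₀ (norm_ne_zero_iff.mpr hv)]
      have h2 : p u ≤ p ((‖v‖⁻¹ : ℝ) • v) := hmin h1
      rw [hsmul, abs_of_pos (inv_pos.mpr hn)] at h2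
      have h3 := mul_le_mul_of_nonneg_right h2 hn.le
      rw [mul_comm (‖v‖⁻¹) (p v), mul_assoc, inv_mul_cancel₀ hn.ne', mul_one] at h3
      exact h3

/-- One side of the hyperbolic splitting. -/
theorem one_side (A : E ≃L[ℝ] E) (hA : Pool.Agent.Y504.CO.NoBdd (fun _ => (A : E →L[ℝ] E)))
    (Ps Pu : Submodule ℝ E) (C a : ℝ) (hc : IsCompl Ps Pu) (ha : 0 < a) (ha1 : a < 1)
    (hs : ∀ k : ℕ, ∀ v ∈ Ps, ‖(⇑A)^[k] v‖ ≤ C * a ^ k * ‖v‖)
    (hu : ∀ k : ℕ, ∀ v ∈ Pu, ‖(⇑A.symm)^[k] v‖ ≤ C * a ^ k * ‖v‖)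
    (p : ℕ → E → ℝ) (hadd : ∀ i v w, p i (v + w) ≤ p i v + p i w)
    (hsmul : ∀ i (c : ℝ) v, p i (c • v) = |c| * p i v)
    (hpos : ∀ v, v ≠ 0 → 0 < p 0 v) (m : ℕ) (hm : 1 ≤ m) (hper : ∀ i v, p (i + m) v = p i (A v)) :
    (∀ v, (∃ K, ∀ k, p k v ≤ K) ↔ v ∈ Ps) ∧
      ∃ C' a' : ℝ, 0 < a' ∧ a' < 1 ∧ ∀ k : ℕ, ∀ v ∈ Ps, p k v ≤ C' * a' ^ k * p 0 v := by
  -- bounds
  choose K hK0 hK using fun i => semi_bound (p i) (hadd i) (hsmul i)
  obtain ⟨c, hc0, hcl⟩ := semi_lower (p 0) (hadd 0) (hsmul 0) hpos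
  set K' := ∑ i ∈ Finset.range m, K i with hK'
  have hK'0 : 0 ≤ K' := Finset.sum_nonneg fun i _ => hK0 i
  have hKK : ∀ i < m, ∀ v, p i v ≤ K' * ‖v‖ := by
    intro i hi v
    refine le_trans (hK i v) (mul_le_mul_of_nonneg_right ?_ (norm_nonneg _))
    exact Finset.single_le_sum (fun j _ => hK0 j) (Finset.mem_range.mpr hi)
  have hq : ∀ q i v, p (i + m * q) v = p i ((⇑A)^[q] v) := by
    intro q
    induction q with
    | zero => intro i v; simp
    | succ q ih =>
      intro i v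
      rw [show i + m * (q + 1) = i + m * q + m by ring, hper, ih, Function.iterate_succ_apply]
  have hC' : ∀ k v, v ∈ Ps → ‖(⇑A)^[k] v‖ ≤ |C| * a ^ k * ‖v‖ := by
    intro k v hv
    refine le_trans (hs k v hv) ?_
    have := le_abs_self C
    gcongr
  -- the rate
  set a' : ℝ := a ^ ((m : ℝ)⁻¹) with ha'
  have hm0 : (m : ℝ) ≠ 0 := by positivity
  have ha'0 : 0 < a' := Real.rpow_pos_of_pos ha _
  have ha'1 : a' < 1 := Real.rpow_lt_one ha.le ha1 (by positivity)
  have ha'm : a' ^ m = a := by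
    rw [ha', ← Real.rpow_natCast, ← Real.rpow_mul ha.le, inv_mul_cancel₀ hm0, Real.rpow_one]
  have hrate : ∀ k : ℕ, ∀ v ∈ Ps, p k v ≤ (K' * |C| / (c * a)) * a' ^ k * p 0 v := by
    intro k v hv
    have hdm : k % m + m * (k / m) = k := Nat.mod_add_div k m
    have hlt : k % m < m := Nat.mod_lt _ (by omega)
    have h1 : p k v = p (k % m) ((⇑A)^[k / m] v) := by
      conv_lhs => rw [← hdm]
      exact hq _ _ _
    have h2 := hKK (k % m) hlt ((⇑A)^[k / m] v)
    have h3 := hC' (k / m) v hv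
    have h4 := hcl v
    have h5 : a ^ (k / m) ≤ a' ^ k / a := by
      rw [le_div_iff₀ ha, ← ha'm, ← pow_mul, ← pow_add]
      refine pow_le_pow_of_le_one ha'0.le ha'1.le ?_
      have : m * (k / m) + m = m * (k / m) + m := rfl
      omega
    have h6 : 0 ≤ a ^ (k / m) := by positivity
    have h7 : ‖v‖ ≤ p 0 v / c := by
      rw [le_div_iff₀ hc0]
      linarith
    calc p k v = p (k % m) ((⇑A)^[k / m] v) := h1
      _ ≤ K' * ‖(⇑A)^[k / m] v‖ := h2
      _ ≤ K' * (|C| * a ^ (k / m) * ‖v‖) := by gcongr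
      _ ≤ K' * (|C| * (a' ^ k / a) * (p 0 v / c)) := by
        have : 0 ≤ a' ^ k / a := by positivity
        have h8 : 0 ≤ p 0 v / c := le_trans (norm_nonneg _) h7
        gcongr
      _ = (K' * |C| / (c * a)) * a' ^ k * p 0 v := by
        field_simp
  refine ⟨fun v => ⟨?_, ?_⟩, _, a', ha'0, ha'1, hrate⟩
  · rintro ⟨B, hB⟩
    -- decompose
    have hv : v ∈ Ps ⊔ Pu := by
      rw [hc.sup_eq_top]
      exact Submodule.mem_top
    obtain ⟨s, hsP, u, huP, rfl⟩ := Submodule.mem_sup.mp hv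
    -- the bi-infinite orbit of u
    have hlin : ∀ (k : ℕ) (x y : E), (⇑A)^[k] (x + y) = (⇑A)^[k] x + (⇑A)^[k] y := by
      intro k
      induction k with
      | zero => intro x y; rfl
      | succ k ih =>
        intro x y
        rw [Function.iterate_succ_apply, Function.iterate_succ_apply, Function.iterate_succ_apply,
          map_add, ih]
    have hub : ∀ k : ℕ, ‖(⇑A)^[k] u‖ ≤ B / c + |C| * ‖s‖ := by
      intro k
      have h1 : (⇑A)^[k] u = (⇑A)^[k] (s + u) - (⇑A)^[k] s := by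
        rw [hlin]
        abel
      have h2 : ‖(⇑A)^[k] (s + u)‖ ≤ B / c := by
        rw [le_div_iff₀ hc0]
        have h3 := hcl ((⇑A)^[k] (s + u))
        have h4 := hB (0 + m * k)
        rw [hq] at h4
        linarith
      have h3 : ‖(⇑A)^[k] s‖ ≤ |C| * ‖s‖ := by
        refine le_trans (hC' k s hsP) ?_
        have : a ^ k ≤ 1 := pow_le_one₀ ha.le ha1.le
        have h4 : |C| * a ^ k ≤ |C| * 1 := mul_le_mul_of_nonneg_left this (abs_nonneg _)
        rw [mul_one] at h4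
        exact mul_le_mul_of_nonneg_right h4 (norm_nonneg _)
      rw [h1]
      exact le_trans (norm_sub_le _ _) (add_le_add h2 h3)
    have hub2 : ∀ k : ℕ, ‖(⇑A.symm)^[k] u‖ ≤ |C| * ‖u‖ := by
      intro k
      refine le_trans (hu k u huP) ?_
      have : a ^ k ≤ 1 := pow_le_one₀ ha.le ha1.le
      have h4 : |C| * a ^ k ≤ |C| * 1 := mul_le_mul_of_nonneg_left this (abs_nonneg _)
      rw [mul_one] at h4
      have h5 : C * a ^ k ≤ |C| * a ^ k := mul_le_mul_of_nonneg_right (le_abs_self C) (by positivity)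
      exact mul_le_mul_of_nonneg_right (le_trans h5 h4) (norm_nonneg _)
    -- the sequence
    set w : ℤ → E := fun i => (A ^ i) u with hw
    have hpow : ∀ k : ℕ, (A ^ (k : ℤ)) u = (⇑A)^[k] u := by
      intro k
      rw [zpow_natCast]
      induction k with
      | zero => rfl
      | succ k ih =>
        rw [pow_succ', Function.iterate_succ_apply', ← ih]
        rfl
    have hpow2 : ∀ k : ℕ, (A ^ (-(k : ℤ))) u = (⇑A.symm)^[k] u := by
      intro k
      rw [zpow_neg, zpow_natCast, ← inv_pow]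
      induction k with
      | zero => rfl
      | succ k ih =>
        rw [pow_succ', Function.iterate_succ_apply', ← ih]
        rfl
    have hw1 : ∀ i, w (i + 1) = (A : E →L[ℝ] E) (w i) := by
      intro i
      rw [hw]
      simp only
      rw [add_comm, zpow_one_add]
      rfl
    have hwb : ∃ C : ℝ, ∀ i, ‖w i‖ ≤ C := by
      refine ⟨(B / c + |C| * ‖s‖) + |C| * ‖u‖, fun i => ?_⟩
      have hn1 : 0 ≤ B / c + |C| * ‖s‖ := le_trans (norm_nonneg _) (hub 0)
      have hn2 : 0 ≤ |C| * ‖u‖ := by positivity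
      rcases Int.eq_nat_or_neg i with ⟨k, rfl | rfl⟩
      · have : w (k : ℤ) = (⇑A)^[k] u := hpow k
        rw [this]
        linarith [hub k]
      · have : w (-(k : ℤ)) = (⇑A.symm)^[k] u := hpow2 k
        rw [this]
        linarith [hub2 k]
    have h0 := hA w hwb hw1 0
    have hu0 : u = 0 := by
      have : w 0 = u := by
        rw [hw]
        simp only [zpow_zero]
        rfl
      rw [← this, h0]
    rw [hu0, add_zero]
    exact hsP
  · intro hv
    refine ⟨(K' * |C| / (c * a)) * p 0 v, fun k => ?_⟩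
    refine le_trans (hrate k v hv) ?_
    have h1 : a' ^ k ≤ 1 := pow_le_one₀ ha'0.le ha'1.le
    have h2 : 0 ≤ K' * |C| / (c * a) := by positivity
    have h3 : 0 ≤ p 0 v := semi_nonneg (p 0) (hadd 0) (hsmul 0) v
    have h4 : K' * |C| / (c * a) * a' ^ k ≤ K' * |C| / (c * a) * 1 :=
      mul_le_mul_of_nonneg_left h1 h2
    rw [mul_one] at h4
    exact mul_le_mul_of_nonneg_right h4 h3

end lin

theorem noBdd_symm {E : Type} [NormedAddCommGroup E] [NormedSpace ℝ E] (A : E ≃L[ℝ] E)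
    (hA : Pool.Agent.Y504.CO.NoBdd (fun _ => (A : E →L[ℝ] E))) :
    Pool.Agent.Y504.CO.NoBdd (fun _ => (A.symm : E →L[ℝ] E)) := by
  intro v hb hv i
  obtain ⟨C, hC⟩ := hb
  have h := hA (fun i => v (-i)) ⟨C, fun i => hC _⟩ (fun i => by
    have h1 := hv (-(i + 1))
    rw [show -(i + 1) + 1 = -i by ring] at h1
    simp only
    rw [h1]
    simp) (-i)
  simpa using h

/-- Uniform constants on a finite set. -/
theorem unif {X : Type*} (P : Set X) (hP : P.Finite) (Q : X → ℝ → ℝ → Prop)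
    (hmono : ∀ x C C' a a', 0 < a → Q x C a → C ≤ C' → a ≤ a' → Q x C' a')
    (h : ∀ x ∈ P, ∃ C a : ℝ, 0 < a ∧ a < 1 ∧ Q x C a) :
    ∃ C a : ℝ, 0 < a ∧ a < 1 ∧ ∀ x ∈ P, Q x C a := by
  induction P, hP using Set.Finite.induction_on with
  | empty => exact ⟨0, 1 / 2, by norm_num, by norm_num, fun x hx => absurd hx (by simp)⟩
  | @insert x s _ _ ih =>
    obtain ⟨C1, a1, h1, h2, h3⟩ := ih (fun y hy => h y (Set.mem_insert_of_mem _ hy))
    obtain ⟨C2, a2, k1, k2, k3⟩ := h x (Set.mem_insert _ _)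
    refine ⟨max C1 C2, max a1 a2, lt_max_of_lt_left h1, max_lt h2 k2, ?_⟩
    rintro y (rfl | hy)
    · exact hmono _ _ _ _ _ k1 k3 (le_max_right _ _) (le_max_right _ _)
    · exact hmono _ _ _ _ _ h1 (h3 y hy) (le_max_left _ _) (le_max_left _ _)

end Pool.Agent.Q166.IC
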