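import Pool.Agent.Q263.IC.Def
import Pool.Agent.Q166.IC.Lin

/-!
# Project IC of helper263, job IC-HYPFIN
-/

set_option autoImplicit false

open scoped Manifold ContDiff Topology
open Set Filter Pool.Agent.H718R2.G Pool.Agent.H721R2

universe u

namespace Pool.Agent.Q166.IC

section geo

variable {n : ℕ} {N : Type u} [TopologicalSpace N] [ChartedSpace (V n) N]

/-- The tangent vector. -/
def mk (x : N) (v : V n) : TangentBundle 𝓘(ℝ, V n) N := ⟨x, v⟩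

/-- The derivative. -/
noncomputable def dd (f : N → N) (x : N) : V n →L[ℝ] V n := mfderiv 𝓘(ℝ, V n) 𝓘(ℝ, V n) f x

theorem TT_mk (f : N → N) (x : N) (v : V n) :
    tangentMap 𝓘(ℝ, V n) 𝓘(ℝ, V n) f (mk x v) = mk (f x) (dd f x v) := rfl

theorem mk_inj (x : N) (v w : V n) (h : mk x v = mk x w) : v = w :=
  (Bundle.TotalSpace.mk_inj (F := V n) (E := TangentSpace 𝓘(ℝ, V n)) (b := x) (y := v)
    (y' := w)).mp h

theorem iter_diff (f : N → N) (hf : MDifferentiable 𝓘(ℝ, V n) 𝓘(ℝ, V n) f) (k : ℕ) :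
    MDifferentiable 𝓘(ℝ, V n) 𝓘(ℝ, V n) (f^[k]) := by
  induction k with
  | zero => exact mdifferentiable_id
  | succ k ih =>
    rw [Function.iterate_succ]
    exact ih.comp hf

theorem TT_iter (f : N → N) (hf : MDifferentiable 𝓘(ℝ, V n) 𝓘(ℝ, V n) f) (k : ℕ) :
    tangentMap 𝓘(ℝ, V n) 𝓘(ℝ, V n) (f^[k]) = (tangentMap 𝓘(ℝ, V n) 𝓘(ℝ, V n) f)^[k] := by
  induction k with
  | zero => exact tangentMap_id
  | succ k ih =>
    rw [Function.iterate_succ, tangentMap_comp (iter_diff f hf k) hf, ih, Function.iterate_succ]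

theorem TT_add (f : N → N) (hf : MDifferentiable 𝓘(ℝ, V n) 𝓘(ℝ, V n) f) (i m : ℕ)
    (p : TangentBundle 𝓘(ℝ, V n) N) :
    tangentMap 𝓘(ℝ, V n) 𝓘(ℝ, V n) (f^[i + m]) p =
      tangentMap 𝓘(ℝ, V n) 𝓘(ℝ, V n) (f^[i]) (tangentMap 𝓘(ℝ, V n) 𝓘(ℝ, V n) (f^[m]) p) := by
  rw [TT_iter f hf, TT_iter f hf, TT_iter f hf, Function.iterate_add_apply]

theorem TT_inv (f g : N → N) (hf : MDifferentiable 𝓘(ℝ, V n) 𝓘(ℝ, V n) f)
    (hg : MDifferentiable 𝓘(ℝ, V n) 𝓘(ℝ, V n) g) (h : ∀ x, g (f x) = x)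
    (p : TangentBundle 𝓘(ℝ, V n) N) :
    tangentMap 𝓘(ℝ, V n) 𝓘(ℝ, V n) g (tangentMap 𝓘(ℝ, V n) 𝓘(ℝ, V n) f p) = p := by
  have h1 : g ∘ f = id := funext h
  have h2 := congrFun (tangentMap_comp hg hf) p
  rw [h1, tangentMap_id] at h2
  exact h2.symm

theorem dd_chart (f : N → N) (hf : MDifferentiable 𝓘(ℝ, V n) 𝓘(ℝ, V n) f) (x : N)
    (hx : f x = x) : dd f x =
      fderiv ℝ (fun v => chartAt (V n) x (f ((chartAt (V n) x).symm v))) (chartAt (V n) x x) := by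
  have h := (hf x).mfderiv
  unfold dd
  rw [h]
  simp only [mfld_simps, fderivWithin_univ, hx]
  rfl

variable [IsManifold (𝓡 n) ∞ N]

theorem nm_add (Nm : TangentBundle 𝓘(ℝ, V n) N → ℝ) (hN : IsTangentNorm Nm) (x : N) (v w : V n) :
    Nm (mk x (v + w)) ≤ Nm (mk x v) + Nm (mk x w) := hN.add x v w

theorem nm_smul (Nm : TangentBundle 𝓘(ℝ, V n) N → ℝ) (hN : IsTangentNorm Nm) (x : N) (c : ℝ)
    (v : V n) : Nm (mk x (c • v)) = |c| * Nm (mk x v) := hN.smul x c v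

theorem nm_pos (Nm : TangentBundle 𝓘(ℝ, V n) N → ℝ) (hN : IsTangentNorm Nm) (x : N)
    (v : V n) (hv : v ≠ 0) : 0 < Nm (mk x v) := hN.pos x v hv

theorem nm_zero (Nm : TangentBundle 𝓘(ℝ, V n) N → ℝ) (hN : IsTangentNorm Nm) (x : N) :
    Nm (mk x 0) = 0 := by
  have := nm_smul Nm hN x 0 0
  simpa using this

theorem nm_nonneg (Nm : TangentBundle 𝓘(ℝ, V n) N → ℝ) (hN : IsTangentNorm Nm)
    (p : TangentBundle 𝓘(ℝ, V n) N) : 0 ≤ Nm p := by
  have key : ∀ (x : N) (v : V n), 0 ≤ Nm (mk x v) := by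
    intro x v
    by_cases h : v = 0
    · rw [h, nm_zero Nm hN]
    · exact (nm_pos Nm hN _ _ h).le
  exact key p.1 p.2

/-- The vectors with bounded forward orbit. -/
def Bd (f : N → N) (Nm : TangentBundle 𝓘(ℝ, V n) N → ℝ) (hN : IsTangentNorm Nm) (x : N) :
    Submodule ℝ (TangentSpace 𝓘(ℝ, V n) x) where
  carrier := {v | ∃ K : ℝ, ∀ k : ℕ,
    Nm (tangentMap 𝓘(ℝ, V n) 𝓘(ℝ, V n) (f^[k]) (⟨x, v⟩ : TangentBundle 𝓘(ℝ, V n) N)) ≤ K}
  add_mem' := by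
    rintro v w ⟨K, hK⟩ ⟨L, hL⟩
    refine ⟨K + L, fun k => ?_⟩
    have h1 : Nm (mk (f^[k] x) (dd (f^[k]) x v + dd (f^[k]) x w)) ≤
        Nm (mk (f^[k] x) (dd (f^[k]) x v)) + Nm (mk (f^[k] x) (dd (f^[k]) x w)) :=
      nm_add Nm hN _ _ _
    have h2 : tangentMap 𝓘(ℝ, V n) 𝓘(ℝ, V n) (f^[k])
        (⟨x, v + w⟩ : TangentBundle 𝓘(ℝ, V n) N) =
        mk (f^[k] x) (dd (f^[k]) x v + dd (f^[k]) x w) := by
      have : dd (f^[k]) x v + dd (f^[k]) x w = dd (f^[k]) x (v + w : V n) := (map_add _ _ _).symm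
      rw [this]
      rfl
    rw [h2]
    exact le_trans h1 (add_le_add (hK k) (hL k))
  zero_mem' := by
    refine ⟨0, fun k => ?_⟩
    have h2 : tangentMap 𝓘(ℝ, V n) 𝓘(ℝ, V n) (f^[k])
        (⟨x, 0⟩ : TangentBundle 𝓘(ℝ, V n) N) = mk (f^[k] x) 0 := by
      have : (0 : V n) = dd (f^[k]) x (0 : V n) := (map_zero _).symm
      conv_rhs => rw [this]
      rfl
    rw [h2, nm_zero Nm hN]
  smul_mem' := by
    rintro c v ⟨K, hK⟩
    refine ⟨|c| * K, fun k => ?_⟩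
    have h2 : tangentMap 𝓘(ℝ, V n) 𝓘(ℝ, V n) (f^[k])
        (⟨x, c • v⟩ : TangentBundle 𝓘(ℝ, V n) N) = mk (f^[k] x) (c • dd (f^[k]) x v) := by
      have : c • dd (f^[k]) x v = dd (f^[k]) x (c • v : V n) := (map_smul _ _ _).symm
      rw [this]
      rfl
    rw [h2, nm_smul Nm hN]
    exact mul_le_mul_of_nonneg_left (hK k) (abs_nonneg c)

theorem mem_Bd (f : N → N) (Nm : TangentBundle 𝓘(ℝ, V n) N → ℝ) (hN : IsTangentNorm Nm) (x : N)
    (v : V n) : (v : TangentSpace 𝓘(ℝ, V n) x) ∈ Bd f Nm hN x ↔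
      ∃ K : ℝ, ∀ k : ℕ, Nm (tangentMap 𝓘(ℝ, V n) 𝓘(ℝ, V n) (f^[k]) (mk x v)) ≤ K := Iff.rfl

theorem Bd_map (f g : N → N) (Nm : TangentBundle 𝓘(ℝ, V n) N → ℝ) (hN : IsTangentNorm Nm)
    (hf : MDifferentiable 𝓘(ℝ, V n) 𝓘(ℝ, V n) f) (hg : MDifferentiable 𝓘(ℝ, V n) 𝓘(ℝ, V n) g)
    (hgf : ∀ x, g (f x) = x) (hfg : ∀ x, f (g x) = x) (x : N) :
    (Bd f Nm hN x).map (mfderiv 𝓘(ℝ, V n) 𝓘(ℝ, V n) f x).toLinearMap = Bd f Nm hN (f x) ∧
    (Bd g Nm hN x).map (mfderiv 𝓘(ℝ, V n) 𝓘(ℝ, V n) f x).toLinearMap = Bd g Nm hN (f x) := by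
  -- the preimage of a vector
  have hpre : ∀ w : V n, ∃ v : V n, tangentMap 𝓘(ℝ, V n) 𝓘(ℝ, V n) f (mk x v) = mk (f x) w ∧
      dd f x v = w := by
    intro w
    have h1 := TT_inv g f hg hf hfg (mk (f x) w)
    rw [TT_mk g, hgf] at h1
    refine ⟨_, h1, ?_⟩
    rw [TT_mk f] at h1
    exact mk_inj _ _ _ h1
  constructor
  · ext w
    constructor
    · rintro ⟨v, ⟨K, hK⟩, rfl⟩
      refine ⟨K, fun k => ?_⟩
      have h1 := hK (k + 1)
      rw [TT_add f hf] at h1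
      exact h1
    · rintro ⟨K, hK⟩
      obtain ⟨v, hv1, hv2⟩ := hpre w
      refine ⟨v, ⟨max K (Nm (mk x v)), fun k => ?_⟩, hv2⟩
      cases k with
      | zero =>
        refine le_trans (le_of_eq ?_) (le_max_right _ _)
        have : tangentMap 𝓘(ℝ, V n) 𝓘(ℝ, V n) (f^[0]) (mk x v) = mk x v := by
          rw [TT_iter f hf]
          rfl
        exact congrArg Nm this
      | succ k =>
        refine le_trans ?_ (le_max_left _ _)
        have h1 := hK k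
        have h2 : tangentMap 𝓘(ℝ, V n) 𝓘(ℝ, V n) (f^[k + 1]) (mk x v) =
            tangentMap 𝓘(ℝ, V n) 𝓘(ℝ, V n) (f^[k]) (mk (f x) w) := by
          rw [TT_add f hf, Function.iterate_one, hv1]
        have h3 := congrArg Nm h2
        exact le_trans (le_of_eq h3) h1
  · ext w
    constructor
    · rintro ⟨v, ⟨K, hK⟩, rfl⟩
      have hK' : ∀ k : ℕ, Nm (tangentMap 𝓘(ℝ, V n) 𝓘(ℝ, V n) (g^[k]) (mk x v)) ≤ K := hK
      refine ⟨max K (Nm (mk (f x) (dd f x v))), fun k => ?_⟩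
      cases k with
      | zero =>
        refine le_trans (le_of_eq ?_) (le_max_right _ _)
        have : tangentMap 𝓘(ℝ, V n) 𝓘(ℝ, V n) (g^[0]) (mk (f x) (dd f x v)) =
            mk (f x) (dd f x v) := by
          rw [TT_iter g hg]
          rfl
        exact congrArg Nm this
      | succ k =>
        refine le_trans ?_ (le_max_left _ _)
        have h2 : tangentMap 𝓘(ℝ, V n) 𝓘(ℝ, V n) (g^[k + 1]) (mk (f x) (dd f x v)) =
            tangentMap 𝓘(ℝ, V n) 𝓘(ℝ, V n) (g^[k]) (mk x v) := by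
          rw [TT_add g hg, Function.iterate_one]
          exact congrArg _ (TT_inv f g hf hg hgf (mk x v))
        have h3 := congrArg Nm h2
        exact le_trans (le_of_eq h3) (hK' k)
    · rintro ⟨K, hK⟩
      have hK' : ∀ k : ℕ, Nm (tangentMap 𝓘(ℝ, V n) 𝓘(ℝ, V n) (g^[k]) (mk (f x) w)) ≤ K := hK
      obtain ⟨v, hv1, hv2⟩ := hpre w
      refine ⟨v, ⟨K, fun k => ?_⟩, hv2⟩
      have h2 : tangentMap 𝓘(ℝ, V n) 𝓘(ℝ, V n) (g^[k + 1]) (mk (f x) w) =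
          tangentMap 𝓘(ℝ, V n) 𝓘(ℝ, V n) (g^[k]) (mk x v) := by
        rw [TT_add g hg, Function.iterate_one, ← hv1, TT_inv f g hf hg hgf]
      have h3 := congrArg Nm h2
      exact le_trans (le_of_eq h3.symm) (hK' (k + 1))

/-- The hyperbolic splitting at one periodic point. -/
theorem at_pt (hS : Q263.IC.S_SPLIT) (f g : N → N) (Nm : TangentBundle 𝓘(ℝ, V n) N → ℝ)
    (hN : IsTangentNorm Nm)
    (hf : MDifferentiable 𝓘(ℝ, V n) 𝓘(ℝ, V n) f) (hg : MDifferentiable 𝓘(ℝ, V n) 𝓘(ℝ, V n) g)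
    (hgf : ∀ x, g (f x) = x) (hfg : ∀ x, f (g x) = x) (x : N) (m : ℕ) (hm : 1 ≤ m)
    (hx : f^[m] x = x) (hyp : Pool.Agent.Y504.CO.HypAt n f x) :
    IsCompl (Bd f Nm hN x) (Bd g Nm hN x) ∧ ∃ C a : ℝ, 0 < a ∧ a < 1 ∧ (0 ≤ C ∧
      (∀ (k : ℕ) (v : V n), (v : TangentSpace 𝓘(ℝ, V n) x) ∈ Bd f Nm hN x →
        Nm (tangentMap 𝓘(ℝ, V n) 𝓘(ℝ, V n) (f^[k]) (mk x v)) ≤ C * a ^ k * Nm (mk x v)) ∧
      (∀ (k : ℕ) (v : V n), (v : TangentSpace 𝓘(ℝ, V n) x) ∈ Bd g Nm hN x →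
        Nm (tangentMap 𝓘(ℝ, V n) 𝓘(ℝ, V n) (g^[k]) (mk x v)) ≤ C * a ^ k * Nm (mk x v))) := by
  have hfm := iter_diff f hf m
  have hgm := iter_diff g hg m
  have hgfm : ∀ y, g^[m] (f^[m] y) = y := Function.LeftInverse.iterate hgf m
  have hfgm : ∀ y, f^[m] (g^[m] y) = y := Function.LeftInverse.iterate hfg m
  have hgx : g^[m] x = x := by
    have := hgfm x
    rwa [hx] at this
  -- the automorphism
  have hBA : ∀ v : V n, dd (g^[m]) x (dd (f^[m]) x v) = v := by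
    intro v
    have h1 := TT_inv (f^[m]) (g^[m]) hfm hgm hgfm (mk x v)
    rw [TT_mk, hx, TT_mk, hgx] at h1
    exact mk_inj _ _ _ h1
  have hAB : ∀ v : V n, dd (f^[m]) x (dd (g^[m]) x v) = v := by
    intro v
    have h1 := TT_inv (g^[m]) (f^[m]) hgm hfm hfgm (mk x v)
    rw [TT_mk, hgx, TT_mk, hx] at h1
    exact mk_inj _ _ _ h1
  set A : V n ≃L[ℝ] V n := ContinuousLinearEquiv.equivOfInverse (dd (f^[m]) x) (dd (g^[m]) x)
    hBA hAB with hA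
  have hAv : ∀ v, A v = dd (f^[m]) x v := fun v => rfl
  have hAs : ∀ v, A.symm v = dd (g^[m]) x v := fun v => rfl
  have hnb : Pool.Agent.Y504.CO.NoBdd (fun _ => (A : V n →L[ℝ] V n)) := by
    have h1 := hyp m hm hx (chartAt (V n) x) (IsManifold.chart_mem_maximalAtlas x)
      (mem_chart_source (V n) x)
    rw [← dd_chart (f^[m]) hfm x hx] at h1
    exact h1
  obtain ⟨Ps, Pu, C, a, hc, ha, ha1, -, -, hs, hu⟩ := hS (V n) A hnb
  have r1 := one_side A hnb Ps Pu C a hc ha ha1 hs hu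
    (fun k v => Nm (tangentMap 𝓘(ℝ, V n) 𝓘(ℝ, V n) (f^[k]) (mk x v)))
    (fun k v w => by
      simp only [TT_mk, map_add]
      exact nm_add Nm hN _ _ _)
    (fun k c v => by
      simp only [TT_mk, map_smul]
      exact nm_smul Nm hN _ _ _)
    (fun v hv => by
      have h1 : tangentMap 𝓘(ℝ, V n) 𝓘(ℝ, V n) (f^[0]) (mk x v) = mk x v := by
        rw [TT_iter f hf]
        rfl
      simp only [h1]
      exact nm_pos Nm hN _ _ hv)
    m hm
    (fun k v => by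
      rw [TT_add f hf, TT_mk (f^[m]), hx, hAv])
  have r2 := one_side A.symm (noBdd_symm A hnb) Pu Ps C a hc.symm ha ha1 hu
    (by
      rw [ContinuousLinearEquiv.symm_symm]
      exact hs)
    (fun k v => Nm (tangentMap 𝓘(ℝ, V n) 𝓘(ℝ, V n) (g^[k]) (mk x v)))
    (fun k v w => by
      simp only [TT_mk, map_add]
      exact nm_add Nm hN _ _ _)
    (fun k c v => by
      simp only [TT_mk, map_smul]
      exact nm_smul Nm hN _ _ _)
    (fun v hv => by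
      have h1 : tangentMap 𝓘(ℝ, V n) 𝓘(ℝ, V n) (g^[0]) (mk x v) = mk x v := by
        rw [TT_iter g hg]
        rfl
      simp only [h1]
      exact nm_pos Nm hN _ _ hv)
    m hm
    (fun k v => by
      rw [TT_add g hg, TT_mk (g^[m]), hgx, hAs])
  obtain ⟨m1, C1, a1, p1, q1, R1⟩ := r1
  obtain ⟨m2, C2, a2, p2, q2, R2⟩ := r2
  have e1 : (Bd f Nm hN x : Submodule ℝ (TangentSpace 𝓘(ℝ, V n) x)) = Ps := by
    ext v
    exact m1 v
  have e2 : (Bd g Nm hN x : Submodule ℝ (TangentSpace 𝓘(ℝ, V n) x)) = Pu := by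
    ext v
    exact m2 v
  have z1 : tangentMap 𝓘(ℝ, V n) 𝓘(ℝ, V n) (f^[0]) = (id : TangentBundle 𝓘(ℝ, V n) N → _) := by
    rw [TT_iter f hf]
    rfl
  have z2 : tangentMap 𝓘(ℝ, V n) 𝓘(ℝ, V n) (g^[0]) = (id : TangentBundle 𝓘(ℝ, V n) N → _) := by
    rw [TT_iter g hg]
    rfl
  refine ⟨?_, max |C1| |C2|, max a1 a2, lt_max_of_lt_left p1, max_lt q1 q2,
    le_trans (abs_nonneg _) (le_max_left _ _), ?_, ?_⟩
  · rw [e1, e2]
    exact hc
  · intro k v hv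
    have h1 := R1 k v ((m1 v).mp ((mem_Bd f Nm hN x v).mp hv))
    simp only [z1, id] at h1
    refine le_trans h1 ?_
    have h2 : 0 ≤ Nm (mk x v) := nm_nonneg Nm hN _
    have h3 : C1 ≤ max |C1| |C2| := le_trans (le_abs_self _) (le_max_left _ _)
    have h4 : a1 ≤ max a1 a2 := le_max_left _ _
    have h5 : 0 ≤ max |C1| |C2| := le_trans (abs_nonneg _) (le_max_left _ _)
    gcongr
  · intro k v hv
    have h1 := R2 k v ((m2 v).mp ((mem_Bd g Nm hN x v).mp hv))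
    simp only [z2, id] at h1
    refine le_trans h1 ?_
    have h2 : 0 ≤ Nm (mk x v) := nm_nonneg Nm hN _
    have h3 : C2 ≤ max |C1| |C2| := le_trans (le_abs_self _) (le_max_right _ _)
    have h4 : a2 ≤ max a1 a2 := le_max_right _ _
    have h5 : 0 ≤ max |C1| |C2| := le_trans (abs_nonneg _) (le_max_left _ _)
    gcongr

end geo

theorem hypfin (hS : Q263.IC.S_SPLIT) : Q263.IC.S_HYPFIN.{u} := by
  intro n N _ _ _ _ r hr F Nm hNm P hP hFP hyp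
  have hr0 : (r : WithTop ℕ∞) ≠ 0 := by
    intro h
    have : r = 0 := by exact_mod_cast h
    rw [this] at hr
    simp at hr
  have hr1 : (1 : WithTop ℕ∞) ≤ r := by exact_mod_cast hr
  have hf : MDifferentiable 𝓘(ℝ, V n) 𝓘(ℝ, V n) (F : N → N) := F.mdifferentiable hr0
  have hg : MDifferentiable 𝓘(ℝ, V n) 𝓘(ℝ, V n) (F.symm : N → N) := F.symm.mdifferentiable hr0
  have hgf : ∀ x, F.symm (F x) = x := F.symm_apply_apply
  have hfg : ∀ x, F (F.symm x) = x := F.apply_symm_apply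
  have hper : ∀ x ∈ P, ∃ m : ℕ, 1 ≤ m ∧ (⇑F)^[m] x = x := by
    intro x hx
    have hmem : ∀ k : ℕ, (⇑F)^[k] x ∈ P := by
      intro k
      induction k with
      | zero => exact hx
      | succ k ih =>
        rw [Function.iterate_succ_apply', ← hFP]
        exact ⟨_, ih, rfl⟩
    obtain ⟨i, j, hij, h⟩ := hP.exists_lt_map_eq_of_forall_mem hmem
    refine ⟨j - i, by omega, ?_⟩
    have h1 : (⇑F)^[i] ((⇑F)^[j - i] x) = (⇑F)^[i] x := by
      rw [← Function.iterate_add_apply, show i + (j - i) = j by omega, ← h]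
    exact (F.injective.iterate i) h1
  have hpt : ∀ x ∈ P, IsCompl (Bd F Nm hNm x) (Bd F.symm Nm hNm x) ∧ ∃ C a : ℝ, 0 < a ∧ a < 1 ∧
      (0 ≤ C ∧
      (∀ (k : ℕ) (v : V n), (v : TangentSpace 𝓘(ℝ, V n) x) ∈ Bd F Nm hNm x →
        Nm (tangentMap 𝓘(ℝ, V n) 𝓘(ℝ, V n) ((⇑F)^[k]) (mk x v)) ≤ C * a ^ k * Nm (mk x v)) ∧
      (∀ (k : ℕ) (v : V n), (v : TangentSpace 𝓘(ℝ, V n) x) ∈ Bd F.symm Nm hNm x →
        Nm (tangentMap 𝓘(ℝ, V n) 𝓘(ℝ, V n) ((⇑F.symm)^[k]) (mk x v)) ≤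
          C * a ^ k * Nm (mk x v))) := by
    intro x hx
    obtain ⟨m, hm, hmx⟩ := hper x hx
    exact at_pt hS F F.symm Nm hNm hf hg hgf hfg x m hm hmx (hyp x hx)
  obtain ⟨C, a, ha, ha1, hCa⟩ := unif P hP (fun x C a => 0 ≤ C ∧
      (∀ (k : ℕ) (v : V n), (v : TangentSpace 𝓘(ℝ, V n) x) ∈ Bd F Nm hNm x →
        Nm (tangentMap 𝓘(ℝ, V n) 𝓘(ℝ, V n) ((⇑F)^[k]) (mk x v)) ≤ C * a ^ k * Nm (mk x v)) ∧
      (∀ (k : ℕ) (v : V n), (v : TangentSpace 𝓘(ℝ, V n) x) ∈ Bd F.symm Nm hNm x →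
        Nm (tangentMap 𝓘(ℝ, V n) 𝓘(ℝ, V n) ((⇑F.symm)^[k]) (mk x v)) ≤
          C * a ^ k * Nm (mk x v))) (by
      rintro x C C' a a' ha ⟨h1, h2, h3⟩ hC haa
      refine ⟨le_trans h1 hC, fun k v hv => le_trans (h2 k v hv) ?_,
        fun k v hv => le_trans (h3 k v hv) ?_⟩
      · have : 0 ≤ Nm (mk x v) := nm_nonneg Nm hNm _
        have h4 : 0 ≤ C' := le_trans h1 hC
        gcongr
      · have : 0 ≤ Nm (mk x v) := nm_nonneg Nm hNm _
        have h4 : 0 ≤ C' := le_trans h1 hC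
        gcongr) (fun x hx => (hpt x hx).2)
  have hbdd : ∀ (f : N → N), MDifferentiable 𝓘(ℝ, V n) 𝓘(ℝ, V n) f → Continuous
      (tangentMap 𝓘(ℝ, V n) 𝓘(ℝ, V n) f) →
      (∀ x ∈ P, ∀ (k : ℕ) (v : V n), (v : TangentSpace 𝓘(ℝ, V n) x) ∈ Bd f Nm hNm x →
        Nm (tangentMap 𝓘(ℝ, V n) 𝓘(ℝ, V n) (f^[k]) (mk x v)) ≤ C * a ^ k * Nm (mk x v)) →
      0 ≤ C → Q263.HS.ContOn P (fun x => Bd f Nm hNm x) := by
    intro f hfd hfc hR hC
    unfold Q263.HS.ContOn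
    have h1 : {p : TangentBundle 𝓘(ℝ, V n) N | p.1 ∈ P ∧ p.2 ∈ Bd f Nm hNm p.1} =
        {p : TangentBundle 𝓘(ℝ, V n) N | p.1 ∈ P} ∩ ⋂ k : ℕ,
          {p : TangentBundle 𝓘(ℝ, V n) N |
            Nm (tangentMap 𝓘(ℝ, V n) 𝓘(ℝ, V n) (f^[k]) p) ≤ C * a ^ k * Nm p} := by
      ext p
      simp only [Set.mem_ofPred_eq, Set.mem_inter_iff, Set.mem_iInter]
      constructor
      · rintro ⟨h2, h3⟩
        exact ⟨h2, fun k => hR p.1 h2 k p.2 h3⟩
      · rintro ⟨h2, h3⟩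
        refine ⟨h2, C * Nm p, fun k => le_trans (h3 k) ?_⟩
        have h4 : a ^ k ≤ 1 := pow_le_one₀ ha.le ha1.le
        have h5 : 0 ≤ Nm p := nm_nonneg Nm hNm _
        have h6 : C * a ^ k ≤ C * 1 := mul_le_mul_of_nonneg_left h4 hC
        rw [mul_one] at h6
        exact mul_le_mul_of_nonneg_right h6 h5
    rw [h1]
    refine IsClosed.inter ?_ (isClosed_iInter fun k => ?_)
    · exact hP.isClosed.preimage (FiberBundle.continuous_proj (V n) (TangentSpace 𝓘(ℝ, V n)))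
    · refine isClosed_le ?_ (continuous_const.mul hNm.continuous)
      rw [TT_iter f hfd]
      exact hNm.continuous.comp (hfc.iterate k)
  have hfc : Continuous (tangentMap 𝓘(ℝ, V n) 𝓘(ℝ, V n) (F : N → N)) :=
    F.contMDiff.continuous_tangentMap hr1
  have hgc : Continuous (tangentMap 𝓘(ℝ, V n) 𝓘(ℝ, V n) (F.symm : N → N)) :=
    F.symm.contMDiff.continuous_tangentMap hr1
  by_cases hPe : P = ∅
  · subst hPe
    refine ⟨fun x => Bd F Nm hNm x, fun x => Bd F.symm Nm hNm x, 0, 1 / 2,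
      ⟨⟨hNm, isClosed_empty, by simp, by norm_num, by norm_num, ?_, ?_, ?_, ?_⟩, ?_, ?_, ?_⟩⟩
    · intro x hx
      exact absurd hx (by simp)
    · intro x hx
      exact absurd hx (by simp)
    · intro k x hx
      exact absurd hx (by simp)
    · intro k x hx
      exact absurd hx (by simp)
    · intro x hx
      exact absurd hx (by simp)
    · unfold Q263.HS.ContOn
      simp
    · unfold Q263.HS.ContOn
      simp
  · obtain ⟨x0, hx0⟩ := Set.nonempty_iff_ne_empty.mpr hPe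
    have hC0 : 0 ≤ C := (hCa x0 hx0).1
    refine ⟨fun x => Bd F Nm hNm x, fun x => Bd F.symm Nm hNm x, C, a,
      ⟨⟨hNm, hP.isClosed, hFP, ha, ha1, ?_, ?_, ?_, ?_⟩, ?_, ?_, ?_⟩⟩
    · intro x _
      exact (Bd_map F F.symm Nm hNm hf hg hgf hfg x).1
    · intro x _
      exact (Bd_map F F.symm Nm hNm hf hg hgf hfg x).2
    · intro k x hx v hv
      exact (hCa x hx).2.1 k v hv
    · intro k x hx v hv
      exact (hCa x hx).2.2 k v hv
    · intro x hx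
      exact (hpt x hx).1
    · exact hbdd F hf hfc (fun x hx k v hv => (hCa x hx).2.1 k v hv) hC0
    · exact hbdd F.symm hg hgc (fun x hx k v hv => (hCa x hx).2.2 k v hv) hC0

end Pool.Agent.Q166.IC
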